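import Pool.Agent.helper22.FI3.SpecCQ

set_option autoImplicit false

namespace Pool.Agent.FI3

open Pool.Agent.helper58.DC Pool.Agent.DI Pool.Agent.GR Pool.Agent.OB Pool.Agent.DR Pool.Agent.FI

theorem JCH_nrm {Γ : Type} [Group Γ] (C : Finset (Subgroup Γ)) (x : Γ) :
    x ∈ nrm C ↔ ∀ Q ∈ C, x ∈ nz Q := by
  simp only [nrm, Subgroup.mem_iInf]

theorem JCH (hJSG : JSG_stmt) : JCH_stmt := by
  classical
  intro p _ G Gb _ _ _ _ L Z π hQt
  obtain ⟨hA, hB, hC, hT, hZ, hE, hF⟩ := hJSG p G Gb L Z π hQt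
  have hinj : Function.Injective (pre π) := by
    intro N N' h
    exact le_antisymm ((hB N N').1 h.le) ((hB N' N).1 h.ge)
  have hback : ∀ Cb : Finset (Subgroup Gb), NCh p L Z (Cb.image (pre π)) → NCh p ⊤ ⊥ Cb := by
    intro Cb h
    refine ⟨⟨?_, ?_, ?_, ?_, ?_⟩, ?_⟩
    · intro Q hQ R hR hne
      have h1 : pre π Q ∈ Cb.image (pre π) := Finset.mem_image_of_mem _ hQ
      have h2 : pre π R ∈ Cb.image (pre π) := Finset.mem_image_of_mem _ hR
      rcases h.ch.chain h1 h2 (fun h3 => hne (hinj h3)) with h4 | h4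
      · exact Or.inl ((hB Q R).1 h4)
      · exact Or.inr ((hB R Q).1 h4)
    · have h1 := h.ch.mem
      rw [Finset.mem_image] at h1
      obtain ⟨Q, hQ, h2⟩ := h1
      have h3 : Q = ⊥ := hinj (h2.trans hZ.symm)
      rw [← h3]
      exact hQ
    · intro Q _
      exact bot_le
    · intro Q _
      exact le_top
    · intro Q hQ
      exact ((hA Q).2.2.2.1).2 (h.ch.pg _ (Finset.mem_image_of_mem _ hQ))
    · intro Q hQ R hR hQR
      exact (hF Q R).2 (h.nm _ (Finset.mem_image_of_mem _ hQ) _ (Finset.mem_image_of_mem _ hR)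
        ((hB Q R).2 hQR))
  refine ⟨⟨?_, ?_, ?_⟩, ?_⟩
  · intro Cb h
    have h : NCh p ⊤ ⊥ Cb := h
    change NCh p L Z (Cb.image (pre π))
    refine ⟨⟨?_, ?_, ?_, ?_, ?_⟩, ?_⟩
    · intro X hX Y hY hne
      rw [Finset.mem_coe, Finset.mem_image] at hX hY
      obtain ⟨Q, hQ, rfl⟩ := hX
      obtain ⟨R, hR, rfl⟩ := hY
      rcases h.ch.chain hQ hR (fun h3 => hne (by rw [h3])) with h4 | h4
      · exact Or.inl ((hB Q R).2 h4)
      · exact Or.inr ((hB R Q).2 h4)
    · rw [Finset.mem_image]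
      exact ⟨⊥, h.ch.mem, hZ⟩
    · intro X hX
      rw [Finset.mem_image] at hX
      obtain ⟨Q, _, rfl⟩ := hX
      exact (hA Q).1
    · intro X hX
      rw [Finset.mem_image] at hX
      obtain ⟨Q, _, rfl⟩ := hX
      exact (hA Q).2.1
    · intro X hX
      rw [Finset.mem_image] at hX
      obtain ⟨Q, hQ, rfl⟩ := hX
      exact ((hA Q).2.2.2.1).1 (h.ch.pg Q hQ)
    · intro X hX Y hY hXY
      rw [Finset.mem_image] at hX hY
      obtain ⟨Q, hQ, rfl⟩ := hX
      obtain ⟨R, hR, rfl⟩ := hY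
      exact (hF Q R).1 (h.nm Q hQ R hR ((hB Q R).1 hXY))
  · intro Cb _ Cb' _ h
    exact Finset.image_injective hinj h
  · intro C h
    have h : NCh p L Z C := h
    have h1 : (C.image (fun H => (H.subgroupOf L).map π)).image (pre π) = C := by
      rw [Finset.image_image]
      apply Finset.ext
      intro X
      rw [Finset.mem_image]
      constructor
      · rintro ⟨H, hH, h2⟩
        have h3 : pre π ((H.subgroupOf L).map π) = X := h2
        rw [hC H (h.ch.bot H hH) (h.ch.le H hH)] at h3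
        rw [← h3]
        exact hH
      · intro hX
        exact ⟨X, hX, hC X (h.ch.bot X hX) (h.ch.le X hX)⟩
    refine ⟨C.image (fun H => (H.subgroupOf L).map π), ?_, h1⟩
    apply hback
    rw [h1]
    exact h
  · intro Cb
    refine ⟨Finset.card_image_of_injective _ hinj, ?_⟩
    apply le_antisymm
    · intro x hx
      rw [mem_pre] at hx
      obtain ⟨hL, hx⟩ := hx
      rw [JCH_nrm] at hx
      refine ⟨hL, ?_⟩
      change x ∈ nrm (Cb.image (pre π))
      rw [JCH_nrm]
      intro X hX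
      rw [Finset.mem_image] at hX
      obtain ⟨Q, hQ, rfl⟩ := hX
      have h2 : x ∈ pre π (nz Q) := mem_pre.2 ⟨hL, hx Q hQ⟩
      rw [hE Q] at h2
      exact h2.2
    · rintro x ⟨hL, hx⟩
      have hx : x ∈ nrm (Cb.image (pre π)) := hx
      rw [JCH_nrm] at hx
      rw [mem_pre]
      refine ⟨hL, ?_⟩
      rw [JCH_nrm]
      intro Q hQ
      have h2 : x ∈ pre π (nz Q) := by
        rw [hE Q]
        exact ⟨hL, hx _ (Finset.mem_image_of_mem _ hQ)⟩
      rw [mem_pre] at h2
      exact h2.2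

end Pool.Agent.FI3
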