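import Pool.Agent.helper58.FI3.SpecF3
import Pool.Agent.helper6.FI.FCP

set_option autoImplicit false

namespace Pool.Agent.FI3

open Pool.Agent.helper58.DC Pool.Agent.DI Pool.Agent.GR Pool.Agent.OB Pool.Agent.DR Pool.Agent.FI

theorem FCP3 (hFRA3 : FRA3_stmt) (hIF : IF_stmt) : FCP3_stmt := by
  intro p M hM G _ _ D x θ χ hlo Q hQ N hN hN' ψ hψ
  obtain ⟨⟨h1, h2, h3, h4a, h4b⟩, h5, h6⟩ := hFRA3 p M hM G D x θ χ hlo Q hQ
  have hKS : cz Q ≤ stF N ψ := by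
    intro k hk
    refine ⟨hN hk, ?_⟩
    funext y
    have e := cjF_apply k ψ y
    have e' := ((hIF G (cz Q)).2 ψ hψ.1).2.1 k⁻¹ ((cz Q).inv_mem hk) y
    rw [inv_inv] at e'
    exact e.trans e'
  constructor
  · intro hQY
    apply le_antisymm
    · intro n hn
      have hn2 : cjF n ψ = ψ := hn.2
      obtain ⟨k, hk, hkn⟩ := h5 n (hN' hn.1) ψ hψ (by rw [hn2]; exact hψ)
      have h7 := (cz Q).mul_mem ((cz Q).inv_mem hk) (h4a hQY hkn)
      rwa [inv_mul_cancel_left] at h7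
    · exact hKS
  · intro hQY
    have h4 := h4b hQY
    have hS0 : stF (TT M D θ ⊓ N) ψ ≤ stF N ψ := by
      intro k hk
      exact ⟨hk.1.2, hk.2⟩
    have hCS0 : cz D ≤ stF (TT M D θ ⊓ N) ψ := by
      intro k hk
      exact ⟨⟨h1 hk, hN (h2 hk)⟩, (hKS (h2 hk)).2⟩
    have hS0T : stF (TT M D θ ⊓ N) ψ ≤ TT M D θ := fun k hk => hk.1.1
    have hmain : ∀ n ∈ stF N ψ, ∃ k ∈ cz Q, k * n ∈ stF (TT M D θ ⊓ N) ψ := by
      intro n hn
      have hn2 : cjF n ψ = ψ := hn.2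
      obtain ⟨k, hk, hkn⟩ := h5 n (hN' hn.1) ψ hψ (by rw [hn2]; exact hψ)
      have h7 := (stF N ψ).mul_mem (hKS hk) hn
      exact ⟨k, hk, ⟨hkn, h7.1⟩, h7.2⟩
    have hinf : cz Q ⊓ stF (TT M D θ ⊓ N) ψ = cz D := by
      apply le_antisymm
      · intro k hk
        rw [← h4]
        exact ⟨hk.2.1.1, hk.1⟩
      · intro k hk
        exact ⟨h2 hk, hCS0 hk⟩
    have hidx : (cz Q).relIndex (stF N ψ) = (cz D).relIndex (stF (TT M D θ ⊓ N) ψ) := by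
      rw [FCP_idx hS0 hmain, ← hinf, Subgroup.inf_relIndex_right]
    have hc0 : CyS (cz D) (stF (TT M D θ ⊓ N) ψ) := FCP_sub hlo.cyc hCS0 hS0T
    refine ⟨?_, ?_, hidx, ?_⟩
    · obtain ⟨s, hs, hs'⟩ := hc0
      refine ⟨s, hS0 hs, fun y hy => ?_⟩
      obtain ⟨k, hk, hky⟩ := hmain y hy
      obtain ⟨m, hm⟩ := hs' _ hky
      refine ⟨m, ?_⟩
      have hsn : s ^ m ∈ nz Q := (nz Q).zpow_mem (hN' hs.1.2) m
      have h7 := (cz Q).mul_mem ((cz Q).inv_mem (FCP_nrm hsn hk)) (h2 hm)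
      have h8 : (s ^ m * k * (s ^ m)⁻¹)⁻¹ * (s ^ m * (k * y)) = s ^ m * y := by group
      rwa [h8] at h7
    · rw [hidx]
      intro hdv
      exact hlo.bet (dvd_trans hdv (Dvd.intro _ (Subgroup.relIndex_mul_relIndex _ _ _ hCS0 hS0T)))
    · exact FCP_sub hlo.cyc (le_inf h1 (h2.trans hN)) inf_le_left

end Pool.Agent.FI3
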